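import Mathlib

open MeasureTheory AddCircle

namespace Pool.Agent.Results.MP_535799_an.NonSidon

noncomputable section

/-- The circle `ℝ / 2πℤ`. -/
abbrev Circ : Type := AddCircle (2 * Real.pi)

instance factTwoPi : Fact (0 < 2 * Real.pi) := ⟨Real.two_pi_pos⟩

/-- Normalised Lebesgue measure on the circle (total mass `1`). -/
abbrev mu : Measure Circ := haarAddCircle

/-- The Banach space `L¹(𝕋)` of complex integrable functions. -/
abbrev L1 : Type := Lp ℂ 1 mu

/-- Convolution `f * g (x) = ∫ f(t) g(x - t) dt`. -/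
def conv (f g : L1) : L1 :=
  ((L1.integrable_coeFn f).integrable_convolution (ContinuousLinearMap.mul ℂ ℂ)
    (L1.integrable_coeFn g)).toL1 _

/-- The `n`-th Fourier coefficient. -/
def coeff (f : L1) (n : ℤ) : ℂ := fourierCoeff (f : Circ → ℂ) n

/-- `Q ⊆ ℤ` has property (P): for every closed subalgebra `A` of `L¹`, every `f ∈ A` with spectrum
in `Q` lies in the closed linear span of the idempotents of `A`. -/
def PropertyP (Q : Set ℤ) : Prop :=
  ∀ A : Submodule ℂ L1, IsClosed (A : Set L1) → (∀ f ∈ A, ∀ g ∈ A, conv f g ∈ A) →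
    ∀ f ∈ A, (∀ n : ℤ, n ∉ Q → coeff f n = 0) →
      f ∈ closure (Submodule.span ℂ {e : L1 | e ∈ A ∧ conv e e = e} : Set L1)

/-- Sidon sets of integers (harmonic analysis sense). -/
def IsSidonSet (Q : Set ℤ) : Prop :=
  ∃ C : ℝ, ∀ (S : Finset ℤ), (S : Set ℤ) ⊆ Q → ∀ a : ℤ → ℂ,
    ∑ n ∈ S, ‖a n‖ ≤ C * ⨆ x : ℝ, ‖∑ n ∈ S, a n * Complex.exp (Complex.I * n * x)‖

lemma fourier_split (n : ℤ) (x t : Circ) :
    (fourier n x : ℂ) = fourier n t * fourier n (x - t) := by
  rw [fourier_apply, fourier_apply, fourier_apply, ← Circle.coe_mul, ← toCircle_add, ← smul_add,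
    add_sub_cancel]

lemma conv_ae (f g : L1) : (conv f g : Circ → ℂ) =ᵐ[mu]
    fun x => ∫ t, f t * g (x - t) ∂mu := by
  unfold conv
  refine (Integrable.coeFn_toL1 _).trans ?_
  rfl

lemma coeff_conv (f g : L1) (n : ℤ) : coeff (conv f g) n = coeff f n * coeff g n := by
  unfold coeff
  have h1 : fourierCoeff (conv f g : Circ → ℂ) n
      = fourierCoeff (fun x => ∫ t, f t * g (x - t) ∂mu) n := by
    exact congrFun (fourierCoeff_congr_ae (conv_ae f g)) n
  rw [h1]
  have hf := (L1.integrable_coeFn f).fourier_smul (-n)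
  have hg := (L1.integrable_coeFn g).fourier_smul (-n)
  have h2 := integral_convolution (ContinuousLinearMap.mul ℂ ℂ) hf hg
  unfold fourierCoeff
  have h3 : (∫ t, fourier (-n) t • ∫ s, f s * g (t - s) ∂mu ∂mu)
      = ∫ x, (convolution (fun t => fourier (-n) t • f t) (fun t => fourier (-n) t • g t)
          (ContinuousLinearMap.mul ℂ ℂ) mu) x ∂mu := by
    congr 1
    ext x
    unfold convolution
    rw [← integral_smul]
    congr 1
    ext t
    have := fourier_split (-n) x t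
    simp only [smul_eq_mul, ContinuousLinearMap.mul_apply', this]
    ring
  rw [h3, h2]
  rfl

/-- Integration against an `L¹` function, as a continuous functional on `C(𝕋)`. -/
def pairing (f : L1) : C(Circ, ℂ) →L[ℂ] ℂ :=
  LinearMap.mkContinuous
    { toFun := fun g => ∫ x, g x * f x ∂mu
      map_add' := by
        intro g h
        have hg : Integrable (fun x => g x * f x) mu :=
          (L1.integrable_coeFn f).bdd_mul g.continuous.aestronglyMeasurable
            (ae_of_all _ (fun x => g.norm_coe_le_norm x))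
        have hh : Integrable (fun x => h x * f x) mu :=
          (L1.integrable_coeFn f).bdd_mul h.continuous.aestronglyMeasurable
            (ae_of_all _ (fun x => h.norm_coe_le_norm x))
        rw [← integral_add hg hh]
        congr 1
        ext x
        simp [add_mul]
      map_smul' := by
        intro c g
        simp only [ContinuousMap.coe_smul, Pi.smul_apply, smul_eq_mul, RingHom.id_apply]
        rw [← integral_const_mul]
        congr 1
        ext x
        ring }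
    (∫ x, ‖f x‖ ∂mu)
    (by
      intro g
      show ‖∫ x, g x * f x ∂mu‖ ≤ _
      refine (norm_integral_le_integral_norm _).trans ?_
      rw [mul_comm _ ‖g‖, ← integral_const_mul]
      have hf := (L1.integrable_coeFn f)
      refine integral_mono ?_ (hf.norm.const_mul _) ?_
      · exact (hf.bdd_mul g.continuous.aestronglyMeasurable
            (ae_of_all _ (fun x => g.norm_coe_le_norm x))).norm
      · intro x
        simp only [norm_mul]
        exact mul_le_mul_of_nonneg_right (g.norm_coe_le_norm x) (norm_nonneg _))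

lemma pairing_apply (f : L1) (g : C(Circ, ℂ)) : pairing f g = ∫ x, g x * f x ∂mu := rfl

/-- Uniqueness of Fourier coefficients in `L¹`. -/
lemma eq_zero_of_coeff (f : L1) (h : ∀ n, coeff f n = 0) : f = 0 := by
  have hint := L1.integrable_coeFn f
  -- integrals against continuous functions vanish
  have hcont : ∀ g : C(Circ, ℂ), pairing f g = 0 := by
    have hclosed : IsClosed {g : C(Circ, ℂ) | pairing f g = 0} :=
      isClosed_singleton.preimage (pairing f).continuous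
    intro g
    have hg : g ∈ (Submodule.span ℂ (Set.range (@fourier (2 * Real.pi)))).topologicalClosure := by
      rw [span_fourier_closure_eq_top]; trivial
    have hsub : (Submodule.span ℂ (Set.range (@fourier (2 * Real.pi))) : Set C(Circ, ℂ)) ⊆
        {g : C(Circ, ℂ) | pairing f g = 0} := by
      intro g hg
      induction hg using Submodule.span_induction with
      | mem x hx =>
        obtain ⟨n, rfl⟩ := hx
        have := h (-n)
        unfold coeff fourierCoeff at this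
        simpa [pairing_apply] using this
      | zero => simp
      | add x y _ _ hx hy =>
        change _ = _ at hx; change _ = _ at hy; change _ = _
        rw [map_add, hx, hy, add_zero]
      | smul a x _ hx =>
        change _ = _ at hx; change _ = _
        rw [map_smul, hx, smul_zero]
    exact closure_minimal hsub hclosed hg
  have hz : (f : Circ → ℂ) =ᵐ[mu] 0 := by
    apply ae_eq_zero_of_forall_setIntegral_isClosed_eq_zero hint
    intro s hs
    have hlim : Filter.Tendsto (fun n : ℕ => ∫ x, (((hs.apprSeq n x : NNReal) : ℝ) : ℂ) * f x ∂mu)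
        Filter.atTop (nhds (∫ x, s.indicator (fun y => f y) x ∂mu)) := by
      refine tendsto_integral_of_dominated_convergence (fun x => ‖f x‖) ?_ hint.norm ?_ ?_
      · intro n
        refine AEStronglyMeasurable.mul ?_ hint.aestronglyMeasurable
        apply Continuous.aestronglyMeasurable
        fun_prop
      · intro n
        refine ae_of_all _ (fun x => ?_)
        rw [norm_mul]
        have h1 : hs.apprSeq n x ≤ 1 := HasOuterApproxClosed.apprSeq_apply_le_one hs n x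
        have h2 : ‖(((hs.apprSeq n x : NNReal) : ℝ) : ℂ)‖ ≤ 1 := by
          rw [Complex.norm_real, Real.norm_of_nonneg (NNReal.coe_nonneg _)]
          exact_mod_cast h1
        calc _ ≤ 1 * ‖f x‖ := mul_le_mul_of_nonneg_right h2 (norm_nonneg _)
          _ = _ := one_mul _
      · refine ae_of_all _ (fun x => ?_)
        have h1 := HasOuterApproxClosed.tendsto_apprSeq hs
        rw [tendsto_pi_nhds] at h1
        have h2 := h1 x
        have h3 : Filter.Tendsto (fun n => (((hs.apprSeq n x : NNReal) : ℝ) : ℂ) * f x) Filter.atTop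
            (nhds ((((s.indicator (fun _ => (1 : NNReal)) x : NNReal) : ℝ) : ℂ) * f x)) := by
          refine Filter.Tendsto.mul_const _ ?_
          exact (Complex.continuous_ofReal.tendsto _).comp
            ((NNReal.continuous_coe.tendsto _).comp h2)
        convert h3 using 2
        by_cases hx : x ∈ s
        · simp [hx]
        · simp [hx]
    have hzero : ∀ n : ℕ, ∫ x, (((hs.apprSeq n x : NNReal) : ℝ) : ℂ) * f x ∂mu = 0 := by
      intro n
      have := hcont ⟨fun x => (((hs.apprSeq n x : NNReal) : ℝ) : ℂ), by fun_prop⟩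
      rw [pairing_apply] at this
      exact this
    simp only [hzero] at hlim
    rw [integral_indicator hs.measurableSet] at hlim
    exact (tendsto_nhds_unique hlim tendsto_const_nhds)
  exact Lp.eq_zero_iff_ae_eq_zero.mpr hz


lemma coeff_sub (f g : L1) (n : ℤ) : coeff (f - g) n = coeff f n - coeff g n := by
  unfold coeff
  have h1 : fourierCoeff ((f - g : L1) : Circ → ℂ) n
      = fourierCoeff ((f : Circ → ℂ) - (g : Circ → ℂ)) n :=
    congrFun (fourierCoeff_congr_ae (Lp.coeFn_sub f g)) n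
  rw [h1]
  unfold fourierCoeff
  rw [← integral_sub ((L1.integrable_coeFn f).fourier_smul (-n))
    ((L1.integrable_coeFn g).fourier_smul (-n))]
  congr 1
  ext x
  simp [mul_sub]

lemma coeff_add (f g : L1) (n : ℤ) : coeff (f + g) n = coeff f n + coeff g n := by
  unfold coeff
  have h1 : fourierCoeff ((f + g : L1) : Circ → ℂ) n
      = fourierCoeff ((f : Circ → ℂ) + (g : Circ → ℂ)) n :=
    congrFun (fourierCoeff_congr_ae (Lp.coeFn_add f g)) n
  rw [h1]
  unfold fourierCoeff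
  rw [← integral_add ((L1.integrable_coeFn f).fourier_smul (-n))
    ((L1.integrable_coeFn g).fourier_smul (-n))]
  congr 1
  ext x
  simp [mul_add]

lemma coeff_smul (c : ℂ) (f : L1) (n : ℤ) : coeff (c • f) n = c * coeff f n := by
  unfold coeff
  have h1 : fourierCoeff ((c • f : L1) : Circ → ℂ) n
      = fourierCoeff (c • (f : Circ → ℂ)) n :=
    congrFun (fourierCoeff_congr_ae (Lp.coeFn_smul c f)) n
  rw [h1, fourierCoeff.const_smul]
  rfl

lemma coeff_zero (n : ℤ) : coeff 0 n = 0 := by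
  have := coeff_smul 0 0 n
  simpa using this

lemma coeff_sum {ι : Type*} (s : Finset ι) (F : ι → L1) (n : ℤ) :
    coeff (∑ i ∈ s, F i) n = ∑ i ∈ s, coeff (F i) n := by
  classical
  induction s using Finset.induction_on with
  | empty => simp [coeff_zero]
  | insert a s ha ih => rw [Finset.sum_insert ha, Finset.sum_insert ha, coeff_add, ih]

/-- If the Fourier coefficients are square summable with sum `≤ B²`, the `L¹` norm is `≤ B`. -/
lemma norm_le_of_coeff (f : L1) (hs : Summable (fun n => ‖coeff f n‖ ^ 2)) (B : ℝ) (hB : 0 ≤ B)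
    (hb : ∑' n, ‖coeff f n‖ ^ 2 ≤ B ^ 2) : ‖f‖ ≤ B := by
  have hmem : Memℓp (coeff f) 2 := by
    rw [memℓp_gen_iff (by norm_num)]
    simpa using hs
  let h : Lp ℂ 2 mu := fourierBasis.repr.symm ⟨coeff f, hmem⟩
  have hh : ∀ n, fourierCoeff (h : Circ → ℂ) n = coeff f n := by
    intro n
    rw [← fourierBasis_repr]
    simp [h]
  have hL1 : MemLp (h : Circ → ℂ) 1 mu := (Lp.memLp h).mono_exponent (by norm_num)
  have hfe : f = hL1.toLp _ := by
    rw [← sub_eq_zero]
    apply eq_zero_of_coeff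
    intro n
    rw [coeff_sub]
    have : coeff (hL1.toLp _) n = coeff f n := by
      rw [← hh n]
      exact congrFun (fourierCoeff_congr_ae (MemLp.coeFn_toLp hL1)) n
    rw [this, sub_self]
  have h1 : ‖f‖ ≤ ‖h‖ := by
    rw [hfe, Lp.norm_toLp, Lp.norm_def]
    apply ENNReal.toReal_mono (Lp.eLpNorm_ne_top h)
    exact eLpNorm_le_eLpNorm_of_exponent_le (by norm_num) (Lp.aestronglyMeasurable h)
  have h2 : ‖h‖ ^ 2 ≤ B ^ 2 := by
    have : ‖h‖ = ‖(⟨coeff f, hmem⟩ : lp (fun _ : ℤ => ℂ) 2)‖ := by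
      simp [h]
    rw [this]
    have h3 := lp.norm_rpow_eq_tsum (p := 2) (by norm_num) (⟨coeff f, hmem⟩ : lp (fun _ : ℤ => ℂ) 2)
    have h4 : ‖(⟨coeff f, hmem⟩ : lp (fun _ : ℤ => ℂ) 2)‖ ^ 2 = ∑' n, ‖coeff f n‖ ^ 2 := by
      simpa using h3
    rw [h4]
    exact hb
  exact h1.trans ((sq_le_sq₀ (norm_nonneg _) hB).mp h2)


lemma coeff_fourierLp (n m : ℤ) :
    coeff (fourierLp 1 n) m = if m = n then 1 else 0 := by
  unfold coeff
  rw [fourierCoeff_congr_ae (coeFn_fourierLp 1 n), fourierCoeff_fourier]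
  simp [Pi.single_apply]

/-- The trigonometric polynomial `∑_{n ∈ S} e^{inx}`. -/
def idem (S : Finset ℤ) : L1 := ∑ n ∈ S, (fourierLp 1 n : L1)

lemma coeff_idem (S : Finset ℤ) (m : ℤ) : coeff (idem S) m = if m ∈ S then 1 else 0 := by
  unfold idem
  rw [coeff_sum]
  simp [coeff_fourierLp]

lemma conv_idem (S : Finset ℤ) : conv (idem S) (idem S) = idem S := by
  rw [← sub_eq_zero]
  apply eq_zero_of_coeff
  intro n
  rw [coeff_sub, coeff_conv, coeff_idem]
  split_ifs <;> simp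

section algebra

variable (A : Submodule ℂ L1) (hA : ∀ f ∈ A, ∀ g ∈ A, conv f g ∈ A) (f : L1) (hf : f ∈ A)

include hA hf

lemma exists_mul (φ : ℤ → ℂ) (hφ : ∃ g ∈ A, ∀ n, coeff g n = φ n) (a b : ℂ) :
    ∃ g ∈ A, ∀ n, coeff g n = (a * coeff f n + b) * φ n := by
  obtain ⟨g, hg, hgn⟩ := hφ
  refine ⟨a • conv f g + b • g, A.add_mem (A.smul_mem _ (hA f hf g hg)) (A.smul_mem _ hg), ?_⟩
  intro n
  rw [coeff_add, coeff_smul, coeff_smul, coeff_conv, hgn]
  ring

lemma exists_pow (c : ℂ) (k : ℕ) : ∃ g ∈ A, ∀ n, coeff g n = (coeff f n / c) ^ (k + 1) := by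
  induction k with
  | zero =>
    refine ⟨c⁻¹ • f, A.smul_mem _ hf, ?_⟩
    intro n
    rw [coeff_smul, zero_add, pow_one, div_eq_mul_inv, mul_comm]
  | succ k ih =>
    obtain ⟨g, hg, h⟩ := exists_mul A hA f hf _ ih c⁻¹ 0
    refine ⟨g, hg, fun n => ?_⟩
    rw [h, add_zero, pow_succ (coeff f n / c) (k + 1), div_eq_mul_inv]
    ring

lemma exists_prod (c : ℂ) (k : ℕ) (V : Finset ℂ) :
    ∃ g ∈ A, ∀ n, coeff g n = (coeff f n / c) ^ (k + 1) * ∏ v ∈ V, ((coeff f n - v) / (c - v)) := by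
  classical
  induction V using Finset.induction_on with
  | empty => simpa using exists_pow A hA f hf c k
  | insert v V hv ih =>
    obtain ⟨g, hg, h⟩ := exists_mul A hA f hf _ ih (c - v)⁻¹ (-v * (c - v)⁻¹)
    refine ⟨g, hg, fun n => ?_⟩
    rw [h, Finset.prod_insert hv]
    ring

/-- Key step: level sets of the coefficients give idempotents in the algebra. -/
lemma idem_mem (hAc : IsClosed (A : Set L1)) (hs : Summable (fun n => ‖coeff f n‖ ^ 2))
    (c : ℂ) (hc : c ≠ 0) (S : Finset ℤ) (hS : ∀ n, n ∈ S ↔ coeff f n = c) : idem S ∈ A := by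
  classical
  have hcpos : 0 < ‖c‖ := norm_pos_iff.mpr hc
  -- finitely many large coefficients
  have hfin : {n : ℤ | ‖c‖ / 2 ≤ ‖coeff f n‖}.Finite := by
    have h1 := hs.tendsto_cofinite_zero
    have h2 : ∀ᶠ n in Filter.cofinite, ‖coeff f n‖ ^ 2 < (‖c‖ / 2) ^ 2 :=
      h1.eventually (gt_mem_nhds (by positivity))
    refine (Filter.eventually_cofinite.mp h2).subset ?_
    intro n hn
    have hn' : ‖c‖ / 2 ≤ ‖coeff f n‖ := hn
    have h3 : (‖c‖ / 2) ^ 2 ≤ ‖coeff f n‖ ^ 2 := pow_le_pow_left₀ (by positivity) hn' 2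
    exact not_lt.mpr h3
  set V : Finset ℂ := (hfin.toFinset.image (fun n => coeff f n)).erase c with hV
  set D : ℝ := ∏ v ∈ V, ((‖c‖ + ‖v‖) / ‖c - v‖) with hD
  have hD0 : 0 ≤ D := by
    rw [hD]
    exact Finset.prod_nonneg (fun v _ => by positivity)
  set Sg : ℝ := ∑' n, ‖coeff f n‖ ^ 2 with hSg
  have hSg0 : 0 ≤ Sg := tsum_nonneg (fun n => by positivity)
  -- pointwise estimate
  have hest : ∀ k : ℕ, ∃ g ∈ A, ‖g - idem S‖ ≤ (1 / 2) ^ k * (D * (Real.sqrt Sg / ‖c‖)) := by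
    intro k
    obtain ⟨g, hg, hgn⟩ := exists_prod A hA f hf c k V
    refine ⟨g, hg, ?_⟩
    have hpt : ∀ n, ‖coeff (g - idem S) n‖ ^ 2 ≤
        ((1 / 2) ^ k * (D / ‖c‖)) ^ 2 * ‖coeff f n‖ ^ 2 := by
      intro n
      rw [coeff_sub, coeff_idem, hgn, ← mul_pow]
      apply pow_le_pow_left₀ (norm_nonneg _)
      by_cases hn : n ∈ S
      · have hfc := (hS n).mp hn
        have h1 : ∏ v ∈ V, ((coeff f n - v) / (c - v)) = 1 := by
          apply Finset.prod_eq_one
          intro v hv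
          rw [hfc]
          apply div_self
          rw [sub_ne_zero]
          exact (Finset.ne_of_mem_erase hv).symm
        rw [h1, hfc, div_self hc, if_pos hn]
        simp only [one_pow, mul_one, sub_self, norm_zero]
        positivity
      · rw [if_neg hn, sub_zero]
        have hne : coeff f n ≠ c := fun h => hn ((hS n).mpr h)
        by_cases hbig : ‖c‖ / 2 ≤ ‖coeff f n‖
        · have hmem : coeff f n ∈ V := by
            rw [hV, Finset.mem_erase]
            refine ⟨hne, Finset.mem_image.mpr ⟨n, ?_, rfl⟩⟩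
            simpa using hbig
          rw [Finset.prod_eq_zero hmem (by simp)]
          simp only [mul_zero, norm_zero]
          positivity
        · push Not at hbig
          rw [norm_mul, norm_pow, norm_div, norm_prod]
          have h1 : ∏ v ∈ V, ‖(coeff f n - v) / (c - v)‖ ≤ D := by
            apply Finset.prod_le_prod (fun v _ => norm_nonneg _)
            intro v _
            rw [norm_div]
            apply div_le_div_of_nonneg_right _ (norm_nonneg _)
            exact (norm_sub_le _ _).trans (by linarith)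
          have h2 : (‖coeff f n‖ / ‖c‖) ^ (k + 1) ≤ (1 / 2) ^ k * (‖coeff f n‖ / ‖c‖) := by
            rw [pow_succ]
            apply mul_le_mul_of_nonneg_right _ (by positivity)
            apply pow_le_pow_left₀ (by positivity)
            rw [div_le_iff₀ hcpos]
            linarith
          calc (‖coeff f n‖ / ‖c‖) ^ (k + 1) * ∏ v ∈ V, ‖(coeff f n - v) / (c - v)‖
              ≤ ((1 / 2) ^ k * (‖coeff f n‖ / ‖c‖)) * D :=
                mul_le_mul h2 h1 (Finset.prod_nonneg (fun v _ => norm_nonneg _)) (by positivity)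
            _ = (1 / 2) ^ k * (D / ‖c‖) * ‖coeff f n‖ := by ring
    have hsum : Summable (fun n => ‖coeff (g - idem S) n‖ ^ 2) :=
      Summable.of_nonneg_of_le (fun n => by positivity) hpt (hs.mul_left _)
    apply norm_le_of_coeff _ hsum _ (by positivity)
    calc ∑' n, ‖coeff (g - idem S) n‖ ^ 2
        ≤ ∑' n, ((1 / 2) ^ k * (D / ‖c‖)) ^ 2 * ‖coeff f n‖ ^ 2 :=
          hsum.tsum_le_tsum hpt (hs.mul_left _)
      _ = ((1 / 2) ^ k * (D / ‖c‖)) ^ 2 * Sg := by rw [tsum_mul_left]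
      _ = ((1 / 2) ^ k * (D * (Real.sqrt Sg / ‖c‖))) ^ 2 := by
          rw [← Real.sq_sqrt hSg0]
          rw [Real.sqrt_sq (Real.sqrt_nonneg _)]
          ring
  choose g hgA hgn using hest
  have hlim : Filter.Tendsto g Filter.atTop (nhds (idem S)) := by
    rw [tendsto_iff_norm_sub_tendsto_zero]
    refine squeeze_zero (fun _ => norm_nonneg _) hgn ?_
    have := (tendsto_pow_atTop_nhds_zero_of_lt_one (r := (1 / 2 : ℝ)) (by norm_num)
      (by norm_num)).mul_const (D * (Real.sqrt Sg / ‖c‖))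
    simpa using this
  exact hAc.mem_of_tendsto hlim (Filter.Eventually.of_forall hgA)

/-- Elements with square summable coefficients are limits of combinations of idempotents. -/
lemma mem_closure_span (hAc : IsClosed (A : Set L1)) (hs : Summable (fun n => ‖coeff f n‖ ^ 2)) :
    f ∈ closure (Submodule.span ℂ {e : L1 | e ∈ A ∧ conv e e = e} : Set L1) := by
  classical
  rw [Metric.mem_closure_iff]
  intro ε hε
  -- choose a finite set carrying almost all mass
  have htail := hs.tendsto_cofinite_zero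
  obtain ⟨E, hE⟩ : ∃ E : Finset ℤ, ∑' n, ‖coeff f n‖ ^ 2 - ∑ n ∈ E, ‖coeff f n‖ ^ 2 < (ε / 2) ^ 2 := by
    have h1 := hs.hasSum
    have h2 : ∀ᶠ E : Finset ℤ in Filter.atTop,
        ∑' n, ‖coeff f n‖ ^ 2 - (ε / 2) ^ 2 < ∑ n ∈ E, ‖coeff f n‖ ^ 2 :=
      h1.eventually (lt_mem_nhds (by linarith [show (0:ℝ) < (ε/2)^2 by positivity]))
    obtain ⟨E, hE⟩ := h2.exists
    exact ⟨E, by linarith⟩
  -- level sets are finite
  have hlev : ∀ c : ℂ, c ≠ 0 → {n : ℤ | coeff f n = c}.Finite := by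
    intro c hc
    have h2 : ∀ᶠ n in Filter.cofinite, ‖coeff f n‖ ^ 2 < ‖c‖ ^ 2 :=
      htail.eventually (gt_mem_nhds (by positivity))
    refine (Filter.eventually_cofinite.mp h2).subset ?_
    intro n hn
    have hn' : coeff f n = c := hn
    simp [hn']
  let L : ℂ → Finset ℤ := fun c => if hc : c ≠ 0 then (hlev c hc).toFinset else ∅
  have hL : ∀ c, c ≠ 0 → ∀ n, n ∈ L c ↔ coeff f n = c := by
    intro c hc n
    simp only [L, dif_pos hc, Set.Finite.mem_toFinset]
    exact Iff.rfl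
  set V : Finset ℂ := (E.image (fun n => coeff f n)).erase 0 with hV
  have hV0 : ∀ c ∈ V, c ≠ 0 := fun c hc => Finset.ne_of_mem_erase hc
  let g : L1 := ∑ c ∈ V, c • idem (L c)
  have hgmem : g ∈ Submodule.span ℂ {e : L1 | e ∈ A ∧ conv e e = e} := by
    apply Submodule.sum_mem
    intro c hc
    apply Submodule.smul_mem
    apply Submodule.subset_span
    exact ⟨idem_mem A hA f hf hAc hs c (hV0 c hc) (L c) (hL c (hV0 c hc)), conv_idem _⟩
  refine ⟨g, hgmem, ?_⟩
  rw [dist_eq_norm]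
  have hcoef : ∀ n, coeff g n = if coeff f n ∈ V then coeff f n else 0 := by
    intro n
    show coeff (∑ c ∈ V, c • idem (L c)) n = _
    rw [coeff_sum]
    have h1 : ∀ c ∈ V, coeff (c • idem (L c)) n = if coeff f n = c then c else 0 := by
      intro c hc
      rw [coeff_smul, coeff_idem]
      simp only [hL c (hV0 c hc), mul_ite, mul_one, mul_zero]
    rw [Finset.sum_congr rfl h1]
    simp
  have hpt : ∀ n, ‖coeff (f - g) n‖ ^ 2 ≤ if n ∈ E then 0 else ‖coeff f n‖ ^ 2 := by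
    intro n
    rw [coeff_sub, hcoef]
    by_cases hn : n ∈ E
    · rw [if_pos hn]
      by_cases h0 : coeff f n = 0
      · simp [h0]
      · have : coeff f n ∈ V := by
          rw [hV, Finset.mem_erase]
          exact ⟨h0, Finset.mem_image_of_mem _ hn⟩
        simp [this]
    · rw [if_neg hn]
      split_ifs
      · simp; 
      · simp
  have hsE : Summable (fun n => if n ∈ E then 0 else ‖coeff f n‖ ^ 2) := by
    apply Summable.of_nonneg_of_le _ _ hs
    · intro n; split_ifs <;> positivity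
    · intro n; split_ifs
      · positivity
      · exact le_rfl
  have hsum : Summable (fun n => ‖coeff (f - g) n‖ ^ 2) :=
    Summable.of_nonneg_of_le (fun n => by positivity) hpt hsE
  have htot : ∑' n, ‖coeff (f - g) n‖ ^ 2 ≤ (ε / 2) ^ 2 := by
    calc ∑' n, ‖coeff (f - g) n‖ ^ 2 ≤ ∑' n, (if n ∈ E then 0 else ‖coeff f n‖ ^ 2) :=
          hsum.tsum_le_tsum hpt hsE
      _ = ∑' n, ‖coeff f n‖ ^ 2 - ∑ n ∈ E, ‖coeff f n‖ ^ 2 := by
          have h3 : HasSum (fun n => if n ∈ E then ‖coeff f n‖ ^ 2 else 0)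
              (∑ n ∈ E, ‖coeff f n‖ ^ 2) := by
            have h5 : ∑ n ∈ E, ‖coeff f n‖ ^ 2
                = ∑ n ∈ E, (if n ∈ E then ‖coeff f n‖ ^ 2 else 0) :=
              Finset.sum_congr rfl (fun n hn => by simp [hn])
            rw [h5]
            exact hasSum_sum_of_ne_finset_zero (by intro n hn; simp [hn])
          have h4 := hs.hasSum.sub h3
          rw [← h4.tsum_eq]
          congr 1
          ext n
          split_ifs <;> simp
      _ ≤ (ε / 2) ^ 2 := hE.le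
  have := norm_le_of_coeff (f - g) hsum (ε / 2) (by positivity) htot
  linarith

end algebra

/-- If every `f ∈ L¹` with spectrum in `Q` has square summable coefficients, then `Q` has (P). -/
lemma propertyP_of_sq (Q : Set ℤ)
    (hQ : ∀ f : L1, (∀ n : ℤ, n ∉ Q → coeff f n = 0) → Summable (fun n => ‖coeff f n‖ ^ 2)) :
    PropertyP Q := by
  intro A hAc hA f hf hfQ
  exact mem_closure_span A hA f hf hAc (hQ f hfQ)


/-! ### Trigonometric polynomials -/

/-- The trigonometric polynomial `∑_{n ∈ S} b_n e^{inx}` as a continuous function. -/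
def poly (S : Finset ℤ) (b : ℤ → ℂ) : C(Circ, ℂ) := ∑ n ∈ S, b n • fourier n

/-- A continuous function as an element of `L¹`. -/
def toL (P : C(Circ, ℂ)) : L1 := ContinuousMap.toLp 1 mu ℂ P

lemma toL_ae (P : C(Circ, ℂ)) : (toL P : Circ → ℂ) =ᵐ[mu] P := ContinuousMap.coeFn_toLp mu P

lemma toL_poly (S : Finset ℤ) (b : ℤ → ℂ) : toL (poly S b) = ∑ n ∈ S, b n • (fourierLp 1 n : L1) := by
  unfold toL poly
  rw [map_sum]
  exact Finset.sum_congr rfl (fun n _ => by rw [map_smul])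

lemma coeff_toL_poly (S : Finset ℤ) (b : ℤ → ℂ) (m : ℤ) :
    coeff (toL (poly S b)) m = if m ∈ S then b m else 0 := by
  rw [toL_poly, coeff_sum]
  simp [coeff_smul, coeff_fourierLp]

lemma norm_toL (P : C(Circ, ℂ)) : ‖toL P‖ = ∫ x, ‖P x‖ ∂mu := by
  rw [L1.norm_eq_integral_norm]
  exact integral_congr_ae ((toL_ae P).mono (fun x hx => by simp only [hx]))

lemma coeff_toL (P : C(Circ, ℂ)) (n : ℤ) : coeff (toL P) n = fourierCoeff P n := by
  unfold coeff
  exact congrFun (fourierCoeff_congr_ae (toL_ae P)) n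

lemma integrable_of_cont (g : Circ → ℝ) (hg : Continuous g) : Integrable g mu := by
  exact hg.integrable_of_hasCompactSupport (HasCompactSupport.of_compactSpace g)

lemma parseval_poly (S : Finset ℤ) (b : ℤ → ℂ) :
    ∫ x, ‖poly S b x‖ ^ 2 ∂mu = ∑ n ∈ S, ‖b n‖ ^ 2 := by
  have h1 := tsum_sq_fourierCoeff (ContinuousMap.toLp (E := ℂ) 2 mu ℂ (poly S b))
  have h2 : ∫ t, ‖(ContinuousMap.toLp (E := ℂ) 2 mu ℂ (poly S b) : Circ → ℂ) t‖ ^ 2 ∂mu
      = ∫ x, ‖poly S b x‖ ^ 2 ∂mu :=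
    integral_congr_ae ((ContinuousMap.coeFn_toLp (p := 2) (𝕜 := ℂ) mu (poly S b)).mono
      (fun x hx => by simp only [hx]))
  rw [← h2, ← h1]
  have h3 : ∀ i : ℤ, fourierCoeff (ContinuousMap.toLp (E := ℂ) 2 mu ℂ (poly S b) : Circ → ℂ) i
      = if i ∈ S then b i else 0 := by
    intro i
    rw [fourierCoeff_toLp, ← coeff_toL, coeff_toL_poly]
  simp only [h3]
  rw [tsum_eq_sum (s := S)]
  · exact Finset.sum_congr rfl (fun n hn => by simp [hn])
  · intro n hn
    simp [hn]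

/-- Square of a trigonometric polynomial. -/
lemma poly_sq (F : Finset ℤ) (a : ℤ → ℂ) (x : Circ) :
    (poly F a x) ^ 2 = poly ((F ×ˢ F).image (fun p => p.1 + p.2))
      (fun m => ∑ p ∈ (F ×ˢ F).filter (fun p => p.1 + p.2 = m), a p.1 * a p.2) x := by
  classical
  unfold poly
  simp only [ContinuousMap.coe_sum, Finset.sum_apply, ContinuousMap.coe_smul, Pi.smul_apply,
    smul_eq_mul]
  rw [sq, Finset.sum_mul_sum, ← Finset.sum_product',
    ← Finset.sum_fiberwise_of_maps_to (g := fun p : ℤ × ℤ => p.1 + p.2)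
      (t := (F ×ˢ F).image (fun p => p.1 + p.2)) (fun p hp => Finset.mem_image_of_mem _ hp)]
  refine Finset.sum_congr rfl (fun m _ => ?_)
  rw [Finset.sum_mul]
  refine Finset.sum_congr rfl (fun p hp => ?_)
  have hm : p.1 + p.2 = m := (Finset.mem_filter.mp hp).2
  rw [← hm, fourier_add]
  ring

/-- The `L⁴` bound for sets with few representations as sums of two elements. -/
lemma l4_bound (F : Finset ℤ) (a : ℤ → ℂ)
    (hF : ∀ m : ℤ, ((F ×ˢ F).filter (fun p => p.1 + p.2 = m)).card ≤ 4) :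
    ∫ x, ‖poly F a x‖ ^ 4 ∂mu ≤ 4 * (∑ n ∈ F, ‖a n‖ ^ 2) ^ 2 := by
  classical
  have h1 : ∀ x, ‖poly F a x‖ ^ 4 = ‖poly ((F ×ˢ F).image (fun p => p.1 + p.2))
      (fun m => ∑ p ∈ (F ×ˢ F).filter (fun p => p.1 + p.2 = m), a p.1 * a p.2) x‖ ^ 2 := by
    intro x
    rw [← poly_sq, norm_pow]
    ring
  simp only [h1]
  rw [parseval_poly]
  have h2 : ∀ m : ℤ, ‖∑ p ∈ (F ×ˢ F).filter (fun p => p.1 + p.2 = m), a p.1 * a p.2‖ ^ 2 ≤
      4 * ∑ p ∈ (F ×ˢ F).filter (fun p => p.1 + p.2 = m), ‖a p.1‖ ^ 2 * ‖a p.2‖ ^ 2 := by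
    intro m
    have h3 : ‖∑ p ∈ (F ×ˢ F).filter (fun p => p.1 + p.2 = m), a p.1 * a p.2‖ ≤
        ∑ p ∈ (F ×ˢ F).filter (fun p => p.1 + p.2 = m), ‖a p.1‖ * ‖a p.2‖ :=
      (norm_sum_le _ _).trans (Finset.sum_le_sum (fun p _ => (norm_mul _ _).le))
    have h4 := sq_sum_le_card_mul_sum_sq (s := (F ×ˢ F).filter (fun p => p.1 + p.2 = m))
      (f := fun p => ‖a p.1‖ * ‖a p.2‖)
    have h5 : (((F ×ˢ F).filter (fun p => p.1 + p.2 = m)).card : ℝ) ≤ 4 := by
      exact_mod_cast hF m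
    calc _ ≤ (∑ p ∈ (F ×ˢ F).filter (fun p => p.1 + p.2 = m), ‖a p.1‖ * ‖a p.2‖) ^ 2 :=
          pow_le_pow_left₀ (norm_nonneg _) h3 2
      _ ≤ _ := h4
      _ ≤ 4 * ∑ p ∈ (F ×ˢ F).filter (fun p => p.1 + p.2 = m), (‖a p.1‖ * ‖a p.2‖) ^ 2 :=
          mul_le_mul_of_nonneg_right h5 (Finset.sum_nonneg (fun _ _ => by positivity))
      _ = _ := by
          congr 1
          exact Finset.sum_congr rfl (fun p _ => by ring)
  calc _ ≤ ∑ m ∈ (F ×ˢ F).image (fun p => p.1 + p.2),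
        4 * ∑ p ∈ (F ×ˢ F).filter (fun p => p.1 + p.2 = m), ‖a p.1‖ ^ 2 * ‖a p.2‖ ^ 2 :=
        Finset.sum_le_sum (fun m _ => h2 m)
    _ = 4 * ∑ p ∈ F ×ˢ F, ‖a p.1‖ ^ 2 * ‖a p.2‖ ^ 2 := by
        rw [← Finset.mul_sum, Finset.sum_fiberwise_of_maps_to (g := fun p : ℤ × ℤ => p.1 + p.2)
          (t := (F ×ˢ F).image (fun p => p.1 + p.2)) (fun p hp => Finset.mem_image_of_mem _ hp)]
    _ = 4 * (∑ n ∈ F, ‖a n‖ ^ 2) ^ 2 := by
        rw [sq, Finset.sum_mul_sum, ← Finset.sum_product']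

lemma aux_ineq (s A : ℝ) (hs : 0 ≤ s) (hA : 0 ≤ A)
    (h : 3 * (2 * s) ^ 2 * s ^ 2 ≤ 2 * (2 * s) ^ 3 * A + 4 * (s ^ 2) ^ 2) : s ≤ 2 * A := by
  rcases hs.eq_or_lt with h0 | h0
  · rw [← h0]; positivity
  · have h3 : 0 < s ^ 3 := by positivity
    have h4 : s ^ 3 * s ≤ s ^ 3 * (2 * A) := by linarith
    exact le_of_mul_le_mul_left h4 h3

lemma aux_point (s y : ℝ) (hs : 0 ≤ s) (hy : 0 ≤ y) :
    3 * (2 * s) ^ 2 * y ^ 2 ≤ 2 * (2 * s) ^ 3 * y + y ^ 4 := by
  have h : 0 ≤ y * (y - 2 * s) ^ 2 * (y + 2 * (2 * s)) := by positivity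
  linarith

/-- `‖P‖₂ ≤ 2 ‖P‖₁` for polynomials with such spectra. -/
lemma l2_le_l1 (F : Finset ℤ) (a : ℤ → ℂ)
    (hF : ∀ m : ℤ, ((F ×ˢ F).filter (fun p => p.1 + p.2 = m)).card ≤ 4) :
    ∑ n ∈ F, ‖a n‖ ^ 2 ≤ (2 * ‖toL (poly F a)‖) ^ 2 := by
  set s : ℝ := Real.sqrt (∑ n ∈ F, ‖a n‖ ^ 2) with hs
  have hs0 : 0 ≤ s := Real.sqrt_nonneg _
  have hss : s ^ 2 = ∑ n ∈ F, ‖a n‖ ^ 2 := Real.sq_sqrt (Finset.sum_nonneg (fun _ _ => by positivity))
  have h4 := l4_bound F a hF
  have h2 := parseval_poly F a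
  rw [norm_toL]
  rw [← hss] at h4 h2 ⊢
  have hc : Continuous (fun x => ‖poly F a x‖) := (poly F a).continuous.norm
  have i1 : Integrable (fun x => ‖poly F a x‖) mu := integrable_of_cont _ hc
  have i2 : Integrable (fun x => ‖poly F a x‖ ^ 2) mu := integrable_of_cont _ (hc.pow 2)
  have i4 : Integrable (fun x => ‖poly F a x‖ ^ 4) mu := integrable_of_cont _ (hc.pow 4)
  have j2 : Integrable (fun x => 3 * (2 * s) ^ 2 * ‖poly F a x‖ ^ 2) mu := i2.const_mul _
  have j1 : Integrable (fun x => 2 * (2 * s) ^ 3 * ‖poly F a x‖) mu := i1.const_mul _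
  have j4 : Integrable (fun x => 2 * (2 * s) ^ 3 * ‖poly F a x‖ + ‖poly F a x‖ ^ 4) mu := j1.add i4
  set A1 := ∫ x, ‖poly F a x‖ ∂mu with hA1
  have hA10 : 0 ≤ A1 := integral_nonneg (fun _ => norm_nonneg _)
  -- the pointwise inequality `3 t² y² ≤ 2 t³ y + y⁴` with `t = 2 s`
  have hpt : ∀ x, 3 * (2 * s) ^ 2 * ‖poly F a x‖ ^ 2 ≤
      2 * (2 * s) ^ 3 * ‖poly F a x‖ + ‖poly F a x‖ ^ 4 := by
    intro x
    exact aux_point s _ hs0 (norm_nonneg _)
  have hint : 3 * (2 * s) ^ 2 * s ^ 2 ≤ 2 * (2 * s) ^ 3 * A1 + 4 * (s ^ 2) ^ 2 := by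
    calc 3 * (2 * s) ^ 2 * s ^ 2 = ∫ x, 3 * (2 * s) ^ 2 * ‖poly F a x‖ ^ 2 ∂mu := by
          rw [integral_const_mul, h2]
      _ ≤ ∫ x, (2 * (2 * s) ^ 3 * ‖poly F a x‖ + ‖poly F a x‖ ^ 4) ∂mu :=
          integral_mono j2 j4 hpt
      _ = 2 * (2 * s) ^ 3 * A1 + ∫ x, ‖poly F a x‖ ^ 4 ∂mu := by
          rw [integral_add j1 i4, integral_const_mul]
      _ ≤ _ := by linarith
  have hfin : s ≤ 2 * A1 := aux_ineq s A1 hs0 hA10 hint
  exact pow_le_pow_left₀ hs0 hfin 2


/-! ### Fejér kernels -/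

lemma norm_conv_le (f g : L1) : ‖conv f g‖ ≤ ‖f‖ * ‖g‖ := by
  have hf := (L1.integrable_coeFn f).norm
  have hg := (L1.integrable_coeFn g).norm
  have h1 := integral_convolution (ContinuousLinearMap.mul ℝ ℝ) hf hg
  have h2 : Integrable (convolution (fun x => ‖f x‖) (fun x => ‖g x‖)
      (ContinuousLinearMap.mul ℝ ℝ) mu) mu := hf.integrable_convolution _ hg
  rw [L1.norm_eq_integral_norm, L1.norm_eq_integral_norm, L1.norm_eq_integral_norm]
  have h3 : ∫ x, ‖conv f g x‖ ∂mu = ∫ x, ‖∫ t, f t * g (x - t) ∂mu‖ ∂mu :=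
    integral_congr_ae ((conv_ae f g).mono (fun x hx => by simp only [hx]))
  rw [h3]
  have h4 : ∀ x, ‖∫ t, f t * g (x - t) ∂mu‖ ≤ (convolution (fun x => ‖f x‖) (fun x => ‖g x‖)
      (ContinuousLinearMap.mul ℝ ℝ) mu) x := by
    intro x
    refine (norm_integral_le_integral_norm _).trans (le_of_eq ?_)
    unfold convolution
    congr 1
    ext t
    simp
  have h5 : Integrable (fun x => ∫ t, f t * g (x - t) ∂mu) mu :=
    (L1.integrable_coeFn (conv f g)).congr (conv_ae f g)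
  calc _ ≤ ∫ x, (convolution (fun x => ‖f x‖) (fun x => ‖g x‖)
      (ContinuousLinearMap.mul ℝ ℝ) mu) x ∂mu := integral_mono h5.norm h2 h4
    _ = _ := h1

/-- The Fejér kernel. -/
def fejer (N : ℕ) : C(Circ, ℂ) :=
  ((N : ℂ) + 1)⁻¹ • ∑ p ∈ Finset.Icc (0 : ℤ) N ×ˢ Finset.Icc (0 : ℤ) N, fourier (p.1 - p.2)

lemma fejer_norm (N : ℕ) (x : Circ) :
    ‖fejer N x‖ = ((N : ℝ) + 1)⁻¹ * ‖poly (Finset.Icc (0 : ℤ) N) (fun _ => 1) x‖ ^ 2 := by
  unfold fejer poly
  simp only [ContinuousMap.coe_smul, ContinuousMap.coe_sum, Pi.smul_apply, Finset.sum_apply,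
    smul_eq_mul, norm_mul, one_smul]
  congr 1
  · rw [norm_inv]
    congr 1
    have : ((N : ℂ) + 1) = ((N + 1 : ℝ) : ℂ) := by push_cast; ring
    rw [this, Complex.norm_real, Real.norm_of_nonneg (by positivity)]
  · have h1 : ∑ p ∈ Finset.Icc (0 : ℤ) N ×ˢ Finset.Icc (0 : ℤ) N, (fourier (p.1 - p.2) x : ℂ)
        = (∑ n ∈ Finset.Icc (0 : ℤ) N, (fourier n x : ℂ)) *
          (starRingEnd ℂ) (∑ n ∈ Finset.Icc (0 : ℤ) N, (fourier n x : ℂ)) := by
      rw [map_sum, Finset.sum_mul_sum, ← Finset.sum_product']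
      refine Finset.sum_congr rfl (fun p _ => ?_)
      rw [sub_eq_add_neg, fourier_add, fourier_neg]
    rw [h1, norm_mul, RCLike.norm_conj, sq]

lemma norm_fejer (N : ℕ) : ‖toL (fejer N)‖ = 1 := by
  rw [norm_toL]
  simp only [fejer_norm]
  rw [integral_const_mul, parseval_poly]
  simp only [norm_one, one_pow, Finset.sum_const, Int.card_Icc, nsmul_eq_mul, mul_one]
  have : ((((N : ℤ) + 1 - 0).toNat : ℕ) : ℝ) = (N : ℝ) + 1 := by
    rw [sub_zero]
    norm_cast
  rw [this]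
  field_simp

lemma coeff_fejer (N : ℕ) (n : ℤ) : coeff (toL (fejer N)) n = ((N : ℂ) + 1)⁻¹ *
    (((Finset.Icc (0 : ℤ) N ×ˢ Finset.Icc (0 : ℤ) N).filter (fun p => n = p.1 - p.2)).card : ℂ) := by
  have h1 : toL (fejer N) = ((N : ℂ) + 1)⁻¹ •
      ∑ p ∈ Finset.Icc (0 : ℤ) N ×ˢ Finset.Icc (0 : ℤ) N, (fourierLp 1 (p.1 - p.2) : L1) := by
    unfold toL fejer
    rw [map_smul, map_sum]
  rw [h1, coeff_smul, coeff_sum]
  congr 1
  simp only [coeff_fourierLp]
  rw [Finset.sum_boole]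

lemma coeff_fejer_large (M : ℕ) (n : ℤ) (hn : |n| ≤ M) :
    1 / 2 ≤ ‖coeff (toL (fejer (2 * M))) n‖ := by
  rw [coeff_fejer]
  set T : Finset ℤ := Finset.Icc (max 0 (-n)) (max 0 (-n) + M) with hT
  have hcard : M + 1 ≤ ((Finset.Icc (0 : ℤ) ((2 * M : ℕ) : ℤ) ×ˢ
      Finset.Icc (0 : ℤ) ((2 * M : ℕ) : ℤ)).filter (fun p => n = p.1 - p.2)).card := by
    have h1 : (T.image (fun k => (k + n, k))).card = M + 1 := by
      rw [Finset.card_image_of_injective _ (fun a b h => (Prod.mk.inj h).2), hT, Int.card_Icc]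
      omega
    rw [← h1]
    apply Finset.card_le_card
    intro p hp
    rw [Finset.mem_image] at hp
    obtain ⟨k, hk, rfl⟩ := hp
    rw [hT, Finset.mem_Icc] at hk
    rw [abs_le] at hn
    rw [Finset.mem_filter, Finset.mem_product, Finset.mem_Icc, Finset.mem_Icc]
    push_cast
    refine ⟨⟨⟨?_, ?_⟩, ⟨?_, ?_⟩⟩, ?_⟩ <;> omega
  rw [norm_mul, norm_inv, Complex.norm_natCast]
  have h2 : ‖(((2 * M : ℕ) : ℂ) + 1)‖ = 2 * M + 1 := by
    have : (((2 * M : ℕ) : ℂ) + 1) = ((2 * M + 1 : ℝ) : ℂ) := by push_cast; ring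
    rw [this, Complex.norm_real, Real.norm_of_nonneg (by positivity)]
  rw [h2]
  have h3 : ((M + 1 : ℕ) : ℝ) ≤ (((Finset.Icc (0 : ℤ) ((2 * M : ℕ) : ℤ) ×ˢ
      Finset.Icc (0 : ℤ) ((2 * M : ℕ) : ℤ)).filter (fun p => n = p.1 - p.2)).card : ℝ) := by
    exact_mod_cast hcard
  have h4 : (0 : ℝ) < 2 * M + 1 := by positivity
  rw [inv_mul_eq_div, div_le_div_iff₀ (by norm_num) h4]
  have h5 : ((M + 1 : ℕ) : ℝ) = M + 1 := by push_cast; ring
  rw [h5] at h3
  linarith

lemma coeff_fejer_zero (N : ℕ) (n : ℤ) (hn : (N : ℤ) < |n|) : coeff (toL (fejer N)) n = 0 := by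
  rw [coeff_fejer]
  rw [Finset.card_eq_zero.mpr, Nat.cast_zero, mul_zero]
  rw [Finset.filter_eq_empty_iff]
  intro p hp h
  rw [Finset.mem_product, Finset.mem_Icc, Finset.mem_Icc] at hp
  have : |n| ≤ N := by rw [abs_le]; omega
  omega

/-- `L¹` functions with spectrum in a set with few representations are in `L²`. -/
lemma summable_of_spectrum (Q : Set ℤ)
    (hQ : ∀ F : Finset ℤ, (F : Set ℤ) ⊆ Q → ∀ m : ℤ,
      ((F ×ˢ F).filter (fun p => p.1 + p.2 = m)).card ≤ 4)
    (f : L1) (hf : ∀ n : ℤ, n ∉ Q → coeff f n = 0) : Summable (fun n => ‖coeff f n‖ ^ 2) := by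
  classical
  apply summable_of_sum_le (c := 4 * (2 * ‖f‖) ^ 2) (fun n => by positivity)
  intro F'
  obtain ⟨M, hM⟩ : ∃ M : ℕ, ∀ n ∈ F', |n| ≤ M := by
    refine ⟨(F'.sup (fun n => n.natAbs)), fun n hn => ?_⟩
    have h := Finset.le_sup (f := fun n : ℤ => n.natAbs) hn
    have h' : n.natAbs ≤ F'.sup (fun n => n.natAbs) := h
    rw [Int.abs_eq_natAbs]
    exact_mod_cast h'
  set κ : ℤ → ℂ := fun n => coeff (toL (fejer (2 * M))) n with hκ
  set F : Finset ℤ := (Finset.Icc (-((2 * M : ℕ) : ℤ)) ((2 * M : ℕ) : ℤ)).filter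
    (fun n => coeff f n ≠ 0) with hFdef
  have hFQ : (F : Set ℤ) ⊆ Q := by
    intro n hn
    by_contra h
    have := (Finset.mem_filter.mp (Finset.mem_coe.mp hn)).2
    exact this (hf n h)
  set a : ℤ → ℂ := fun n => coeff f n * κ n with ha
  have hg : conv f (toL (fejer (2 * M))) = toL (poly F a) := by
    rw [← sub_eq_zero]
    apply eq_zero_of_coeff
    intro n
    rw [coeff_sub, coeff_conv, coeff_toL_poly]
    by_cases h0 : coeff f n = 0
    · simp [h0, ha]
    · by_cases hn : |n| ≤ ((2 * M : ℕ) : ℤ)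
      · have : n ∈ F := by
          rw [hFdef, Finset.mem_filter, Finset.mem_Icc]
          exact ⟨abs_le.mp hn, h0⟩
        simp [this, ha, hκ]
      · push Not at hn
        rw [coeff_fejer_zero _ _ hn]
        have : n ∉ F := by
          intro h
          rw [hFdef, Finset.mem_filter, Finset.mem_Icc] at h
          have := abs_le.mpr h.1
          omega
        simp [this]
  have h1 := l2_le_l1 F a (hQ F hFQ)
  rw [← hg] at h1
  have h2 : ‖conv f (toL (fejer (2 * M)))‖ ≤ ‖f‖ := by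
    have := norm_conv_le f (toL (fejer (2 * M)))
    rwa [norm_fejer, mul_one] at this
  have h3 : ∑ n ∈ F', ‖coeff f n‖ ^ 2 ≤ ∑ n ∈ F, 4 * ‖a n‖ ^ 2 := by
    have h4 : ∑ n ∈ F', ‖coeff f n‖ ^ 2 = ∑ n ∈ F'.filter (fun n => coeff f n ≠ 0), ‖coeff f n‖ ^ 2 := by
      rw [Finset.sum_filter]
      refine Finset.sum_congr rfl (fun n _ => ?_)
      by_cases h : coeff f n = 0 <;> simp [h]
    rw [h4]
    have h5 : F'.filter (fun n => coeff f n ≠ 0) ⊆ F := by
      intro n hn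
      rw [Finset.mem_filter] at hn
      rw [hFdef, Finset.mem_filter, Finset.mem_Icc]
      refine ⟨?_, hn.2⟩
      have := abs_le.mp (hM n hn.1)
      push_cast
      omega
    calc _ ≤ ∑ n ∈ F'.filter (fun n => coeff f n ≠ 0), 4 * ‖a n‖ ^ 2 := by
          apply Finset.sum_le_sum
          intro n hn
          rw [Finset.mem_filter] at hn
          have h6 := coeff_fejer_large M n (hM n hn.1)
          have h7 : ‖a n‖ = ‖coeff f n‖ * ‖κ n‖ := norm_mul _ _
          rw [h7, mul_pow]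
          have h8 : (1 / 2 : ℝ) ^ 2 ≤ ‖κ n‖ ^ 2 := pow_le_pow_left₀ (by norm_num) h6 2
          nlinarith [sq_nonneg ‖coeff f n‖]
      _ ≤ _ := Finset.sum_le_sum_of_subset_of_nonneg h5 (fun _ _ _ => by positivity)
  rw [← Finset.mul_sum] at h3
  calc _ ≤ 4 * ∑ n ∈ F, ‖a n‖ ^ 2 := h3
    _ ≤ 4 * (2 * ‖conv f (toL (fejer (2 * M)))‖) ^ 2 := by linarith
    _ ≤ 4 * (2 * ‖f‖) ^ 2 := by
        have : (2 * ‖conv f (toL (fejer (2 * M)))‖) ^ 2 ≤ (2 * ‖f‖) ^ 2 :=
          pow_le_pow_left₀ (by positivity) (by linarith) 2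
        linarith


/-! ### The set `Q` -/

/-- `Q = {8^{2i} + 8^{2j+1} : i, j ≥ 0}`. -/
def theQ : Set ℤ := {n | ∃ i j : ℕ, n = 8 ^ (2 * i) + 8 ^ (2 * j + 1)}

lemma decomp (a x : ℕ) : ∃ q r : ℕ,
    8 ^ x = 8 ^ a * (8 * q + if x = a then 1 else 0) + r ∧ 8 * r ≤ 8 ^ a := by
  rcases lt_trichotomy x a with h | h | h
  · refine ⟨0, 8 ^ x, ?_, ?_⟩
    · simp [h.ne]
    · calc 8 * 8 ^ x = 8 ^ (x + 1) := by ring
        _ ≤ 8 ^ a := Nat.pow_le_pow_right (by norm_num) h
  · exact ⟨0, 0, by simp [h], by positivity⟩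
  · refine ⟨8 ^ (x - a - 1), 0, ?_, by positivity⟩
    rw [if_neg h.ne', add_zero, add_zero, ← pow_succ', ← pow_add]
    congr 1
    omega

lemma digit4 (a x y z w : ℕ) : (8 ^ x + 8 ^ y + 8 ^ z + 8 ^ w) / 8 ^ a % 8 =
    (if x = a then 1 else 0) + (if y = a then 1 else 0) + (if z = a then 1 else 0)
      + (if w = a then 1 else 0) := by
  obtain ⟨q1, r1, e1, l1⟩ := decomp a x
  obtain ⟨q2, r2, e2, l2⟩ := decomp a y
  obtain ⟨q3, r3, e3, l3⟩ := decomp a z
  obtain ⟨q4, r4, e4, l4⟩ := decomp a w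
  set c1 := (if x = a then 1 else 0)
  set c2 := (if y = a then 1 else 0)
  set c3 := (if z = a then 1 else 0)
  set c4 := (if w = a then 1 else 0)
  have hc1 : c1 ≤ 1 := by show (if x = a then 1 else 0) ≤ 1; split_ifs <;> simp
  have hc2 : c2 ≤ 1 := by show (if y = a then 1 else 0) ≤ 1; split_ifs <;> simp
  have hc3 : c3 ≤ 1 := by show (if z = a then 1 else 0) ≤ 1; split_ifs <;> simp
  have hc4 : c4 ≤ 1 := by show (if w = a then 1 else 0) ≤ 1; split_ifs <;> simp
  have hpos : 0 < 8 ^ a := by positivity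
  have hsum : 8 ^ x + 8 ^ y + 8 ^ z + 8 ^ w
      = (r1 + r2 + r3 + r4) + 8 ^ a * (8 * (q1 + q2 + q3 + q4) + (c1 + c2 + c3 + c4)) := by
    rw [e1, e2, e3, e4]; ring
  rw [hsum, Nat.add_mul_div_left _ _ hpos, Nat.div_eq_of_lt (by omega)]
  omega

lemma rep (i j k l i' j' k' l' : ℕ)
    (h : 8 ^ (2 * i) + 8 ^ (2 * j + 1) + 8 ^ (2 * k) + 8 ^ (2 * l + 1) =
      8 ^ (2 * i') + 8 ^ (2 * j' + 1) + 8 ^ (2 * k') + 8 ^ (2 * l' + 1)) :
    (i = i' ∨ i = k') ∧ (j = j' ∨ j = l') := by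
  constructor
  · have h1 := digit4 (2 * i) (2 * i) (2 * j + 1) (2 * k) (2 * l + 1)
    have h2 := digit4 (2 * i) (2 * i') (2 * j' + 1) (2 * k') (2 * l' + 1)
    rw [h, h2] at h1
    by_contra hcon
    push Not at hcon
    rw [if_neg (by omega), if_neg (by omega), if_neg (by omega), if_neg (by omega), if_pos rfl]
      at h1
    omega
  · have h1 := digit4 (2 * j + 1) (2 * i) (2 * j + 1) (2 * k) (2 * l + 1)
    have h2 := digit4 (2 * j + 1) (2 * i') (2 * j' + 1) (2 * k') (2 * l' + 1)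
    rw [h, h2] at h1
    by_contra hcon
    push Not at hcon
    rw [if_neg (by omega), if_neg (by omega), if_neg (by omega), if_neg (by omega),
      if_neg (by omega), if_pos rfl] at h1
    omega

lemma theQ_reps (F : Finset ℤ) (hF : (F : Set ℤ) ⊆ theQ) (m : ℤ) :
    ((F ×ˢ F).filter (fun p => p.1 + p.2 = m)).card ≤ 4 := by
  classical
  rcases ((F ×ˢ F).filter (fun p => p.1 + p.2 = m)).eq_empty_or_nonempty with h | ⟨p0, hp0⟩
  · rw [h]; simp
  · rw [Finset.mem_filter, Finset.mem_product] at hp0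
    obtain ⟨⟨h1, h2⟩, h3⟩ := hp0
    obtain ⟨i', j', e1⟩ := hF h1
    obtain ⟨k', l', e2⟩ := hF h2
    have hsub : (F ×ˢ F).filter (fun p => p.1 + p.2 = m) ⊆
        ((({i', k'} : Finset ℕ) ×ˢ ({j', l'} : Finset ℕ)).image
          (fun q => ((8 : ℤ) ^ (2 * q.1) + 8 ^ (2 * q.2 + 1),
            m - ((8 : ℤ) ^ (2 * q.1) + 8 ^ (2 * q.2 + 1))))) := by
      intro p hp
      rw [Finset.mem_filter, Finset.mem_product] at hp
      obtain ⟨⟨g1, g2⟩, g3⟩ := hp
      obtain ⟨i, j, e3⟩ := hF g1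
      obtain ⟨k, l, e4⟩ := hF g2
      have hz : (8 : ℤ) ^ (2 * i) + 8 ^ (2 * j + 1) + 8 ^ (2 * k) + 8 ^ (2 * l + 1) =
          8 ^ (2 * i') + 8 ^ (2 * j' + 1) + 8 ^ (2 * k') + 8 ^ (2 * l' + 1) := by
        rw [e3, e4] at g3
        rw [e1, e2] at h3
        linarith
      have hn : 8 ^ (2 * i) + 8 ^ (2 * j + 1) + 8 ^ (2 * k) + 8 ^ (2 * l + 1) =
          8 ^ (2 * i') + 8 ^ (2 * j' + 1) + 8 ^ (2 * k') + 8 ^ (2 * l' + 1) := by
        exact_mod_cast hz
      obtain ⟨hi, hj⟩ := rep i j k l i' j' k' l' hn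
      rw [Finset.mem_image]
      refine ⟨(i, j), ?_, ?_⟩
      · rw [Finset.mem_product, Finset.mem_insert, Finset.mem_singleton, Finset.mem_insert,
          Finset.mem_singleton]
        exact ⟨hi, hj⟩
      · ext
        · exact e3.symm
        · show m - _ = p.2
          rw [← e3, ← g3]; ring
    refine (Finset.card_le_card hsub).trans (Finset.card_image_le.trans ?_)
    rw [Finset.card_product]
    calc _ ≤ 2 * 2 := Nat.mul_le_mul (Finset.card_le_two) (Finset.card_le_two)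
      _ = 4 := by norm_num

lemma theQ_propertyP : PropertyP theQ :=
  propertyP_of_sq theQ (summable_of_spectrum theQ theQ_reps)

/-! ### `Q` is not a Sidon set -/

section nonSidon

variable (m : ℕ) [NeZero m]

lemma dft_parseval (z : ZMod m → ℂ) :
    ∑ j : ZMod m, ‖∑ i : ZMod m, ZMod.stdAddChar (i * j) * z i‖ ^ 2 = m * ∑ i, ‖z i‖ ^ 2 := by
  have key : ∀ i i' : ZMod m, ∑ j : ZMod m, ZMod.stdAddChar (i * j) *
      (starRingEnd ℂ) (ZMod.stdAddChar (i' * j)) = if i = i' then (m : ℂ) else 0 := by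
    intro i i'
    have h1 : ∀ j : ZMod m, ZMod.stdAddChar (i * j) *
      (starRingEnd ℂ) (ZMod.stdAddChar (i' * j)) = ZMod.stdAddChar (j * (i - i')) := by
      intro j
      rw [← AddChar.map_neg_eq_conj, ← AddChar.map_add_eq_mul]
      congr 1
      ring
    simp only [h1]
    rw [AddChar.sum_mulShift _ (ZMod.isPrimitive_stdAddChar m)]
    simp [sub_eq_zero, ZMod.card]
  have h2 : ((∑ j : ZMod m, ‖∑ i : ZMod m, ZMod.stdAddChar (i * j) * z i‖ ^ 2 : ℝ) : ℂ)
      = ((m * ∑ i, ‖z i‖ ^ 2 : ℝ) : ℂ) := by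
    push_cast
    simp only [← Complex.mul_conj']
    simp only [map_sum, map_mul, Finset.sum_mul_sum]
    rw [Finset.sum_comm]
    simp only [Finset.mul_sum]
    refine Finset.sum_congr rfl (fun i _ => ?_)
    rw [Finset.sum_comm]
    have h3 : ∀ i' : ZMod m, ∑ j : ZMod m, ZMod.stdAddChar (i * j) * z i *
        ((starRingEnd ℂ) (ZMod.stdAddChar (i' * j)) * (starRingEnd ℂ) (z i'))
        = if i = i' then (m : ℂ) * (z i * (starRingEnd ℂ) (z i')) else 0 := by
      intro i'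
      have h4 : ∀ j : ZMod m, ZMod.stdAddChar (i * j) * z i *
        ((starRingEnd ℂ) (ZMod.stdAddChar (i' * j)) * (starRingEnd ℂ) (z i'))
        = (ZMod.stdAddChar (i * j) * (starRingEnd ℂ) (ZMod.stdAddChar (i' * j))) *
          (z i * (starRingEnd ℂ) (z i')) := by intro j; ring
      simp only [h4]
      rw [← Finset.sum_mul, key]
      split_ifs <;> simp
    simp only [h3]
    simp
  exact_mod_cast h2

lemma bilinear_bound (z w : ZMod m → ℂ) (hz : ∀ i, ‖z i‖ = 1) (hw : ∀ i, ‖w i‖ = 1) :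
    ‖∑ p : ZMod m × ZMod m, ZMod.stdAddChar (p.1 * p.2) * (z p.1 * w p.2)‖ ^ 2 ≤ (m : ℝ) ^ 3 := by
  have h1 : ∑ p : ZMod m × ZMod m, ZMod.stdAddChar (p.1 * p.2) * (z p.1 * w p.2)
      = ∑ j : ZMod m, w j * ∑ i : ZMod m, ZMod.stdAddChar (i * j) * z i := by
    rw [Fintype.sum_prod_type_right]
    refine Finset.sum_congr rfl (fun j _ => ?_)
    rw [Finset.mul_sum]
    refine Finset.sum_congr rfl (fun i _ => ?_)
    ring
  rw [h1]
  have h2 : ‖∑ j : ZMod m, w j * ∑ i : ZMod m, ZMod.stdAddChar (i * j) * z i‖ ≤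
      ∑ j : ZMod m, ‖∑ i : ZMod m, ZMod.stdAddChar (i * j) * z i‖ := by
    refine (norm_sum_le _ _).trans (Finset.sum_le_sum (fun j _ => ?_))
    rw [norm_mul, hw, one_mul]
  have h3 := sq_sum_le_card_mul_sum_sq (s := (Finset.univ : Finset (ZMod m)))
    (f := fun j => ‖∑ i : ZMod m, ZMod.stdAddChar (i * j) * z i‖)
  rw [dft_parseval] at h3
  simp only [hz, one_pow, Finset.sum_const, Finset.card_univ, ZMod.card, nsmul_eq_mul,
    mul_one] at h3
  calc _ ≤ (∑ j : ZMod m, ‖∑ i : ZMod m, ZMod.stdAddChar (i * j) * z i‖) ^ 2 :=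
        pow_le_pow_left₀ (norm_nonneg _) h2 2
    _ ≤ _ := h3
    _ = (m : ℝ) ^ 3 := by ring

end nonSidon

/-- The parametrisation of `Q`. -/
def phi (m : ℕ) (p : ZMod m × ZMod m) : ℤ := 8 ^ (2 * p.1.val) + 8 ^ (2 * p.2.val + 1)

lemma phi_inj (m : ℕ) [NeZero m] : Function.Injective (phi m) := by
  intro p q h
  unfold phi at h
  have hn : 8 ^ (2 * p.1.val) + 8 ^ (2 * p.2.val + 1) = 8 ^ (2 * q.1.val) + 8 ^ (2 * q.2.val + 1) := by
    exact_mod_cast h
  have h1 := rep p.1.val p.2.val p.1.val p.2.val q.1.val q.2.val q.1.val q.2.val (by omega)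
  exact Prod.ext (ZMod.val_injective m (by tauto)) (ZMod.val_injective m (by tauto))

lemma theQ_not_sidon : ¬ IsSidonSet theQ := by
  rintro ⟨C, hC⟩
  obtain ⟨m', hm'⟩ := exists_nat_gt (C ^ 2)
  set m := m' + 1 with hm
  have : NeZero m := ⟨by omega⟩
  have hmC : C ^ 2 < m := by rw [hm]; push_cast; linarith
  set S : Finset ℤ := Finset.univ.map ⟨phi m, phi_inj m⟩ with hS
  have hSQ : (S : Set ℤ) ⊆ theQ := by
    intro n hn
    rw [hS, Finset.mem_coe, Finset.mem_map] at hn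
    obtain ⟨p, _, rfl⟩ := hn
    exact ⟨p.1.val, p.2.val, rfl⟩
  set a : ℤ → ℂ := Function.extend (phi m) (fun p => ZMod.stdAddChar (p.1 * p.2)) 0 with ha
  have haφ : ∀ p, a (phi m p) = ZMod.stdAddChar (p.1 * p.2) := fun p =>
    (phi_inj m).extend_apply _ _ p
  have h := hC S hSQ a
  have hl : ∑ n ∈ S, ‖a n‖ = (m : ℝ) ^ 2 := by
    rw [hS, Finset.sum_map]
    simp only [Function.Embedding.coeFn_mk, haφ, AddChar.norm_apply]
    simp [ZMod.card, sq]
  have hr : (⨆ x : ℝ, ‖∑ n ∈ S, a n * Complex.exp (Complex.I * n * x)‖) ≤ Real.sqrt ((m : ℝ) ^ 3) := by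
    apply ciSup_le
    intro x
    apply Real.le_sqrt_of_sq_le
    have h1 : ∑ n ∈ S, a n * Complex.exp (Complex.I * n * x) =
        ∑ p : ZMod m × ZMod m, ZMod.stdAddChar (p.1 * p.2) *
          (Complex.exp ((((8 : ℝ) ^ (2 * p.1.val) * x : ℝ) : ℂ) * Complex.I) *
            Complex.exp ((((8 : ℝ) ^ (2 * p.2.val + 1) * x : ℝ) : ℂ) * Complex.I)) := by
      rw [hS, Finset.sum_map]
      refine Finset.sum_congr rfl (fun p _ => ?_)
      simp only [Function.Embedding.coeFn_mk, haφ]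
      congr 1
      rw [← Complex.exp_add]
      congr 1
      unfold phi
      push_cast
      ring
    rw [h1]
    exact bilinear_bound m (fun i => Complex.exp ((((8 : ℝ) ^ (2 * i.val) * x : ℝ) : ℂ) * Complex.I))
      (fun j => Complex.exp ((((8 : ℝ) ^ (2 * j.val + 1) * x : ℝ) : ℂ) * Complex.I))
      (fun i => Complex.norm_exp_ofReal_mul_I _) (fun i => Complex.norm_exp_ofReal_mul_I _)
  have hmpos : (0 : ℝ) < m := by rw [hm]; positivity
  rw [hl] at h
  have hsup0 : 0 ≤ (⨆ x : ℝ, ‖∑ n ∈ S, a n * Complex.exp (Complex.I * n * x)‖) :=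
    Real.iSup_nonneg (fun _ => norm_nonneg _)
  rcases le_or_gt C 0 with hC0 | hC0
  · have : C * (⨆ x : ℝ, ‖∑ n ∈ S, a n * Complex.exp (Complex.I * n * x)‖) ≤ 0 :=
      mul_nonpos_of_nonpos_of_nonneg hC0 hsup0
    have : (0:ℝ) < (m : ℝ) ^ 2 := by positivity
    linarith
  · have h2 : (m : ℝ) ^ 2 ≤ C * Real.sqrt ((m : ℝ) ^ 3) :=
      h.trans (mul_le_mul_of_nonneg_left hr hC0.le)
    have h3 : ((m : ℝ) ^ 2) ^ 2 ≤ (C * Real.sqrt ((m : ℝ) ^ 3)) ^ 2 :=
      pow_le_pow_left₀ (by positivity) h2 2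
    rw [mul_pow, Real.sq_sqrt (by positivity)] at h3
    have h4 : (m : ℝ) ^ 3 * m ≤ (m : ℝ) ^ 3 * C ^ 2 := by nlinarith
    have h5 := le_of_mul_le_mul_left h4 (by positivity)
    linarith

/-- There is a set of integers with property (P) that is not a Sidon set. -/
theorem result : ∃ Q : Set ℤ, PropertyP Q ∧ ¬ IsSidonSet Q :=
  ⟨theQ, theQ_propertyP, theQ_not_sidon⟩

end

end Pool.Agent.Results.MP_535799_an.NonSidon
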